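import Pool.Agent.X286.Ca.E

/-!
# The ring `ℤ[x] / (x ^ σ - 1)` as a group ring
-/

set_option autoImplicit false

namespace Pool.Agent.X286.Ca

open Finset Polynomial

/-- the group ring of the cyclic group of order `σ` -/
abbrev A (σ : ℕ) : Type := AddMonoidAlgebra ℤ (ZMod σ)

/-- the generator -/
noncomputable def x (σ : ℕ) : A σ := AddMonoidAlgebra.single 1 1

/-- `a + b x` -/
noncomputable def el (σ : ℕ) (a b : ℤ) : A σ := (a : A σ) + (b : A σ) * x σ

variable {σ : ℕ}

theorem x_pow (n : ℕ) : x σ ^ n = AddMonoidAlgebra.single (n : ZMod σ) 1 := by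
  rw [x, AddMonoidAlgebra.single_pow]
  simp

theorem x_card : x σ ^ σ = 1 := by
  rw [x_pow, ZMod.natCast_self]
  rfl

theorem x_pow_eq {m n : ℕ} (h : (m : ZMod σ) = n) : x σ ^ m = x σ ^ n := by
  rw [x_pow, x_pow, h]

theorem intCast_eq (c : ℤ) : ((c : ℤ) : A σ) = AddMonoidAlgebra.single 0 c := by
  have h : ((c : ℤ) : A σ) = c • (1 : A σ) := by simp
  rw [h, AddMonoidAlgebra.one_def]
  ext r
  simp

theorem coeff_single_mul (s r : ZMod σ) (c : ℤ) (h : A σ) :
    (AddMonoidAlgebra.single s c * h).coeff r = c * h.coeff (r - s) := by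
  apply AddMonoidAlgebra.coeff_single_mul_eq_mul_coeff
  intro m _
  rw [add_comm, eq_sub_iff_add_eq]

theorem coeff_int_mul (c : ℤ) (h : A σ) (r : ZMod σ) : ((c : A σ) * h).coeff r = c * h.coeff r := by
  rw [intCast_eq, coeff_single_mul, sub_zero]

theorem coeff_x_mul (n : ℕ) (h : A σ) (r : ZMod σ) : (x σ ^ n * h).coeff r = h.coeff (r - n) := by
  rw [x_pow, coeff_single_mul, one_mul]

theorem coeff_x_pow (n : ℕ) (r : ZMod σ) [Decidable ((n : ZMod σ) = r)] :
    (x σ ^ n).coeff r = if (n : ZMod σ) = r then 1 else 0 := by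
  rw [x_pow, AddMonoidAlgebra.coeff_single, Finsupp.single_apply]

theorem sum_single [NeZero σ] (h : A σ) : h = ∑ r : ZMod σ, AddMonoidAlgebra.single r (h.coeff r) := by
  classical
  ext r
  rw [← AddMonoidAlgebra.coeffAddEquiv_apply, ← AddMonoidAlgebra.coeffAddEquiv_apply, map_sum]
  simp [Finsupp.single_apply, Finsupp.finsetSum_apply]

theorem dvd_iff [NeZero σ] (n : ℤ) (h : A σ) : (n : A σ) ∣ h ↔ ∀ r, n ∣ h.coeff r := by
  constructor
  · rintro ⟨u, rfl⟩ r
    rw [coeff_int_mul]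
    exact dvd_mul_right _ _
  · intro H
    choose u hu using H
    refine ⟨∑ r : ZMod σ, AddMonoidAlgebra.single r (u r), ?_⟩
    rw [mul_sum]
    conv_lhs => rw [sum_single h]
    apply sum_congr rfl
    intro r _
    rw [intCast_eq, AddMonoidAlgebra.single_mul_single, zero_add, hu]

theorem dvd_iff_nat [NeZero σ] (n : ℕ) (h : A σ) :
    (n : A σ) ∣ h ↔ ∀ r, (n : ℤ) ∣ h.coeff r := by
  rw [← dvd_iff]
  push_cast
  rfl

theorem hreg [NeZero σ] {p : ℕ} (hp : 0 < p) (u : A σ) (j : ℕ)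
    (h : (p : A σ) ^ (j + 1) ∣ (p : A σ) ^ j * u) : (p : A σ) ∣ u := by
  have h1 : ((p ^ (j + 1) : ℕ) : A σ) ∣ (p : A σ) ^ j * u := by push_cast; exact h
  rw [dvd_iff_nat] at h1 ⊢
  intro r
  have h2 := h1 r
  have h3 : ((p : A σ) ^ j * u).coeff r = (p : ℤ) ^ j * u.coeff r := by
    rw [← coeff_int_mul]
    push_cast
    rfl
  rw [h3] at h2
  push_cast at h2
  rw [pow_succ] at h2
  exact Int.dvd_of_mul_dvd_mul_left (by positivity) h2

/-- evaluation at `x` -/
noncomputable def th (σ : ℕ) : ℤ[X] →+* A σ := (aeval (x σ)).toRingHom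

theorem th_X : th σ X = x σ := by simp [th]

theorem th_C (c : ℤ) : th σ (C c) = (c : A σ) := by simp [th]

theorem th_surj [NeZero σ] (u : A σ) : ∃ s : ℤ[X], th σ s = u := by
  refine ⟨∑ r : ZMod σ, C (u.coeff r) * X ^ r.val, ?_⟩
  rw [map_sum]
  conv_rhs => rw [sum_single u]
  apply sum_congr rfl
  intro r _
  rw [map_mul, map_pow, th_C, th_X, x_pow, intCast_eq, AddMonoidAlgebra.single_mul_single]
  simp

theorem th_inj [NeZero σ] (r : ℤ[X]) (hd : r.natDegree < σ) (h : th σ r = 0) : r = 0 := by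
  have h1 := r.as_sum_range' σ hd
  have hco : ∀ j : ZMod σ, (th σ r).coeff j = r.coeff j.val := by
    intro j
    rw [h1, map_sum, ← AddMonoidAlgebra.coeffAddEquiv_apply, map_sum, Finsupp.finsetSum_apply]
    rw [← h1]
    rw [sum_eq_single_of_mem j.val (mem_range.2 (ZMod.val_lt j))]
    · rw [← C_mul_X_pow_eq_monomial, map_mul, map_pow, th_C, th_X, AddMonoidAlgebra.coeffAddEquiv_apply,
        coeff_int_mul, x_pow]
      simp
    · intro i hi hij
      rw [← C_mul_X_pow_eq_monomial, map_mul, map_pow, th_C, th_X, AddMonoidAlgebra.coeffAddEquiv_apply,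
        coeff_int_mul, x_pow]
      have : (i : ZMod σ) ≠ j := by
        intro hc
        apply hij
        rw [← hc, ZMod.val_cast_of_lt (mem_range.1 hi)]
      simp [this]
  ext i
  rcases Nat.lt_or_ge i σ with hi | hi
  · have h2 := hco (i : ZMod σ)
    rw [ZMod.val_cast_of_lt hi, h] at h2
    simpa using h2.symm
  · rw [coeff_eq_zero_of_natDegree_lt (by omega), coeff_zero]

/-- the bridge -/
theorem bridge [NeZero σ] (n : ℕ) (h : ℤ[X]) :
    (n : A σ) ∣ th σ h ↔
      (X ^ σ - 1 : (ZMod n)[X]) ∣ h.map (Int.castRingHom (ZMod n)) := by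
  have hσ : 0 < σ := Nat.pos_of_ne_zero (NeZero.ne σ)
  have hmap : (X ^ σ - 1 : ℤ[X]).map (Int.castRingHom (ZMod n)) = X ^ σ - 1 := by
    simp [Polynomial.map_sub]
  have hth : th σ (X ^ σ - 1) = 0 := by
    rw [map_sub, map_pow, th_X, x_card, map_one, sub_self]
  constructor
  · rintro ⟨u, hu⟩
    obtain ⟨s, rfl⟩ := th_surj u
    have hmon : (X ^ σ - 1 : ℤ[X]).Monic := monic_X_pow_sub_C 1 hσ.ne'
    obtain ⟨r, hr⟩ : ∃ r, r = (h - C (n : ℤ) * s) %ₘ (X ^ σ - 1 : ℤ[X]) := ⟨_, rfl⟩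
    have h1 := modByMonic_add_div (h - C (n : ℤ) * s) (X ^ σ - 1 : ℤ[X])
    rw [← hr] at h1
    have h2 : th σ r = 0 := by
      have h3 := congrArg (th σ) h1
      rw [map_add, map_mul, hth, zero_mul, add_zero, map_sub, map_mul, th_C, hu] at h3
      rw [h3]
      push_cast
      ring
    have hdeg : r.natDegree < σ := by
      rw [hr]
      have h3 := natDegree_modByMonic_lt (h - C (n : ℤ) * s) hmon (by
        intro hc
        have h4 : (X ^ σ - 1 : ℤ[X]).natDegree = σ := natDegree_X_pow_sub_C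
        rw [hc, natDegree_one] at h4
        omega)
      have h4 : (X ^ σ - 1 : ℤ[X]).natDegree = σ := natDegree_X_pow_sub_C
      rwa [h4] at h3
    rw [th_inj r hdeg h2, zero_add] at h1
    have h3 : h = C (n : ℤ) * s + (X ^ σ - 1) * ((h - C (n : ℤ) * s) /ₘ (X ^ σ - 1)) := by
      rw [h1]; ring
    rw [h3, Polynomial.map_add, Polynomial.map_mul, Polynomial.map_mul, hmap]
    have h4 : (C (n : ℤ)).map (Int.castRingHom (ZMod n)) = 0 := by
      rw [Polynomial.map_C]; simp
    rw [h4, zero_mul, zero_add]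
    exact dvd_mul_right _ _
  · rintro ⟨q, hq⟩
    obtain ⟨q, rfl⟩ := Polynomial.map_surjective (Int.castRingHom (ZMod n))
      ZMod.intCast_surjective q
    have h1 : (h - (X ^ σ - 1) * q).map (Int.castRingHom (ZMod n)) = 0 := by
      rw [Polynomial.map_sub, Polynomial.map_mul, hmap, hq, sub_self]
    have h2 : C (n : ℤ) ∣ h - (X ^ σ - 1) * q := by
      rw [C_dvd_iff_dvd_coeff]
      intro i
      have h3 := congrArg (fun t => t.coeff i) h1
      simp only [Polynomial.coeff_map, coeff_zero] at h3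
      exact (ZMod.intCast_zmod_eq_zero_iff_dvd _ n).1 (by simpa using h3)
    obtain ⟨s, hs⟩ := h2
    refine ⟨th σ s, ?_⟩
    have h3 := congrArg (th σ) hs
    rw [map_sub, map_mul, hth, zero_mul, sub_zero, map_mul, th_C] at h3
    rw [h3]
    push_cast
    rfl

theorem E_iff [NeZero σ] (n : ℕ) (a b : ℤ) (k : ℕ) : E (n : A σ) (el σ a b) k ↔
    ∃ l, (X ^ σ - 1 : (ZMod n)[X]) ∣
      (C (a : ZMod n) + C (b : ZMod n) * X) ^ (k + l) - (C (a : ZMod n) + C (b : ZMod n) * X) ^ l := by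
  unfold E
  apply exists_congr
  intro l
  have h1 : el σ a b ^ (k + l) - el σ a b ^ l = th σ ((C a + C b * X) ^ (k + l) - (C a + C b * X) ^ l) := by
    simp only [map_sub, map_pow, map_add, map_mul, th_C, th_X]
    rfl
  rw [h1, bridge]
  simp [Polynomial.map_sub, Polynomial.map_add, Polynomial.map_mul, Polynomial.map_pow]

end Pool.Agent.X286.Ca
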