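import Mathlib

/-!
# Eventual periods of powers modulo powers of an odd prime
-/

set_option autoImplicit false

namespace Pool.Agent.X286.Ca

open Finset

variable {S : Type} [CommRing S]

/-- `k` is an eventual period of the powers of `f` modulo `n`. -/
def E (n f : S) (k : ℕ) : Prop := ∃ l, n ∣ f ^ (k + l) - f ^ l

theorem E.ev {n f : S} {k : ℕ} (h : E n f k) : ∃ l₀, ∀ l, l₀ ≤ l → n ∣ f ^ (k + l) - f ^ l := by
  obtain ⟨l₀, h⟩ := h
  refine ⟨l₀, fun l hl => ?_⟩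
  obtain ⟨t, rfl⟩ := Nat.exists_eq_add_of_le hl
  have : f ^ (k + (l₀ + t)) - f ^ (l₀ + t) = (f ^ (k + l₀) - f ^ l₀) * f ^ t := by ring
  rw [this]
  exact h.mul_right _

theorem E.add {n f : S} {k k' : ℕ} (h : E n f k) (h' : E n f k') : E n f (k + k') := by
  obtain ⟨a, ha⟩ := h.ev
  obtain ⟨b, hb⟩ := h'.ev
  refine ⟨a + b, ?_⟩
  have h1 := ha (k' + (a + b)) (by omega)
  have h2 := hb (a + b) (by omega)
  have : f ^ (k + k' + (a + b)) - f ^ (a + b) =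
    (f ^ (k + (k' + (a + b))) - f ^ (k' + (a + b))) + (f ^ (k' + (a + b)) - f ^ (a + b)) := by
    ring
  rw [this]
  exact dvd_add h1 h2

theorem E.sub {n f : S} {k k' : ℕ} (h : E n f k) (h' : E n f (k + k')) : E n f k' := by
  obtain ⟨a, ha⟩ := h.ev
  obtain ⟨b, hb⟩ := h'.ev
  refine ⟨a + b, ?_⟩
  have h1 := ha (k' + (a + b)) (by omega)
  have h2 := hb (a + b) (by omega)
  have : f ^ (k' + (a + b)) - f ^ (a + b) =
    (f ^ (k + k' + (a + b)) - f ^ (a + b)) - (f ^ (k + (k' + (a + b))) - f ^ (k' + (a + b))) := by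
    ring
  rw [this]
  exact dvd_sub h2 h1

theorem E.zero (n f : S) : E n f 0 := ⟨0, by simp⟩

theorem E.mul {n f : S} {k : ℕ} (h : E n f k) (t : ℕ) : E n f (k * t) := by
  induction t with
  | zero => exact E.zero n f
  | succ t ih => rw [Nat.mul_succ]; exact ih.add h

theorem E.of_dvd {n f : S} {k k' : ℕ} (h : E n f k) (hd : k ∣ k') : E n f k' := by
  obtain ⟨t, rfl⟩ := hd
  exact h.mul t

theorem E.mono {n n' f : S} {k : ℕ} (h : E n f k) (hd : n' ∣ n) : E n' f k := by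
  obtain ⟨l, hl⟩ := h
  exact ⟨l, hd.trans hl⟩

/-- `k` is the period. -/
def Per (n f : S) (k : ℕ) : Prop := 1 ≤ k ∧ E n f k ∧ ∀ j, 1 ≤ j → E n f j → k ≤ j

theorem Per.dvd {n f : S} {k j : ℕ} (h : Per n f k) (hj : E n f j) : k ∣ j := by
  obtain ⟨h1, h2, h3⟩ := h
  have h4 : E n f (j % k) := by
    apply (h2.mul (j / k)).sub
    rw [Nat.div_add_mod]
    exact hj
  by_contra hnd
  have h5 : 1 ≤ j % k := by
    rw [Nat.one_le_iff_ne_zero]
    intro h0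
    exact hnd (Nat.dvd_of_mod_eq_zero h0)
  have h6 := h3 _ h5 h4
  have h7 := Nat.mod_lt j h1
  omega

theorem Per.iff {n f : S} {k j : ℕ} (h : Per n f k) : E n f j ↔ k ∣ j :=
  ⟨h.dvd, fun hd => h.2.1.of_dvd hd⟩

theorem exists_per {n f : S} {j : ℕ} (hj1 : 1 ≤ j) (hj : E n f j) : ∃ k, k ≤ j ∧ Per n f k := by
  classical
  have hex : ∃ k, 1 ≤ k ∧ E n f k := ⟨j, hj1, hj⟩
  refine ⟨Nat.find hex, Nat.find_min' hex ⟨hj1, hj⟩, (Nat.find_spec hex).1, (Nat.find_spec hex).2, ?_⟩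
  intro i hi1 hi
  exact Nat.find_min' hex ⟨hi1, hi⟩

theorem E.lift {p : ℕ} {f : S} {k : ℕ} (h : E (p : S) f k) (m : ℕ) :
    E ((p : S) ^ (m + 1)) f (p ^ m * k) := by
  obtain ⟨l, hl⟩ := h
  refine ⟨l * p ^ m, ?_⟩
  have h1 := dvd_sub_pow_of_dvd_sub hl m
  rw [← pow_mul, ← pow_mul] at h1
  have h2 : p ^ m * k + l * p ^ m = (k + l) * p ^ m := by ring
  rw [h2]
  exact h1

/-- descent: a period modulo `p ^ (m+1)` -/
theorem E.down {p : ℕ} (hp : Odd p) {f : S} {k m : ℕ} (hm : 2 ≤ m)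
    (hreg : ∀ u : S, ∀ j : ℕ, (p : S) ^ (j + 1) ∣ (p : S) ^ j * u → (p : S) ∣ u)
    (h1 : E ((p : S) ^ (m - 1)) f k) (h2 : E ((p : S) ^ (m + 1)) f (p * k)) :
    E ((p : S) ^ m) f k := by
  obtain ⟨a, ha⟩ := h1.ev
  obtain ⟨b, hb⟩ := h2.ev
  obtain ⟨l, hl⟩ : ∃ l, l = a + b := ⟨_, rfl⟩
  obtain ⟨c, hc⟩ := ha l (by omega)
  have hp1 : 1 ≤ p := by
    obtain ⟨t, ht⟩ := hp
    omega
  have h3 := hb (p * l) (by nlinarith)
  obtain ⟨v, hv⟩ : ∃ v, v = f ^ l := ⟨_, rfl⟩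
  obtain ⟨u, hu⟩ : ∃ u, u = f ^ (k + l) := ⟨_, rfl⟩
  have e1 : f ^ (p * k + p * l) = u ^ p := by rw [hu, ← pow_mul]; ring
  have e2 : f ^ (p * l) = v ^ p := by rw [hv, ← pow_mul]; ring
  rw [← hu, ← hv] at hc
  rw [e1, e2] at h3
  obtain ⟨d, hd⟩ : ∃ d, d = (p : S) ^ (m - 2) * c := ⟨_, rfl⟩
  have hu2 : u = v + p * d := by
    have : (p : S) ^ (m - 1) = p * (p : S) ^ (m - 2) := by
      rw [← pow_succ']; congr 1; omega
    rw [this] at hc
    rw [hd, ← mul_assoc, ← hc]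
    ring
  obtain ⟨s, hs⟩ := odd_sq_dvd_geom_sum₂_sub (R := S) v d hp
  have hgeo := (Commute.all u v).geom_sum₂_mul p
  have hsum : (∑ i ∈ range p, u ^ i * v ^ (p - 1 - i)) = p * v ^ (p - 1) + (p : S) ^ 2 * s := by
    rw [← hs, ← hu2]; ring
  rw [hsum, hc] at hgeo
  have h4 : (p : S) ^ (m + 1) ∣ (p : S) ^ m * (c * v ^ (p - 1)) := by
    have h5 : (p : S) ^ m = p * (p : S) ^ (m - 1) := by
      rw [← pow_succ']; congr 1; omega
    have h5' : (p : S) ^ (m + 1) = p * (p * (p : S) ^ (m - 1)) := by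
      rw [← h5, ← pow_succ']
    have h6 : (p : S) ^ m * (c * v ^ (p - 1)) = (u ^ p - v ^ p) - (p : S) ^ (m + 1) * (c * s) := by
      rw [← hgeo, h5', h5]; ring
    rw [h6]
    exact dvd_sub h3 (dvd_mul_right _ _)
  have h5 := hreg _ _ h4
  refine ⟨l + l * (p - 1), ?_⟩
  have h6 : f ^ (k + (l + l * (p - 1))) - f ^ (l + l * (p - 1)) = (u - v) * v ^ (p - 1) := by
    rw [hu, hv, ← pow_mul]; ring
  rw [h6, hc]
  have h7 : (p : S) ^ m = (p : S) ^ (m - 1) * p := by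
    rw [← pow_succ]; congr 1; omega
  rw [h7, mul_assoc]
  exact mul_dvd_mul_left _ h5

/-- growth -/
theorem grow {p : ℕ} (hp : Odd p) {f : S} {k : ℕ}
    (hreg : ∀ u : S, ∀ j : ℕ, (p : S) ^ (j + 1) ∣ (p : S) ^ j * u → (p : S) ∣ u)
    (h1 : E (p : S) f k) (h2 : ¬ E ((p : S) ^ 2) f k) (m : ℕ) :
    ¬ E ((p : S) ^ (m + 2)) f (p ^ m * k) := by
  induction m with
  | zero => simpa using h2
  | succ m ih =>
    intro h
    apply ih
    apply E.down hp (m := m + 2) (by omega) hreg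
    · have := h1.lift m
      simpa using this
    · have e : p * (p ^ m * k) = p ^ (m + 1) * k := by ring
      rw [e]
      exact h

theorem per_grow {p : ℕ} (hpp : p.Prime) (hp : Odd p) {f : S} {k : ℕ}
    (hreg : ∀ u : S, ∀ j : ℕ, (p : S) ^ (j + 1) ∣ (p : S) ^ j * u → (p : S) ∣ u)
    (h1 : Per (p : S) f k) (h2 : ¬ E ((p : S) ^ 2) f k) (m : ℕ) :
    Per ((p : S) ^ (m + 1)) f (p ^ m * k) := by
  have hk := h1.1
  have hp0 : 0 < p := hpp.pos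
  have hpos : 1 ≤ p ^ m * k := Nat.one_le_iff_ne_zero.2 (by positivity)
  obtain ⟨j, hj, hP⟩ := exists_per hpos (h1.2.1.lift m)
  have hd : j ∣ p ^ m * k := hP.dvd (h1.2.1.lift m)
  have hkj : k ∣ j := h1.dvd (hP.2.1.mono (dvd_pow_self _ (by omega)))
  obtain ⟨t, rfl⟩ := hkj
  have ht : t ∣ p ^ m := by
    rw [mul_comm (p ^ m) k] at hd
    exact Nat.dvd_of_mul_dvd_mul_left hk hd
  obtain ⟨i, hi, rfl⟩ := (Nat.dvd_prime_pow hpp).1 ht
  rcases Nat.lt_or_ge i m with h | h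
  · exfalso
    obtain ⟨m', rfl⟩ : ∃ m', m = m' + 1 := ⟨m - 1, by omega⟩
    apply grow hp hreg h1.2.1 h2 m'
    apply hP.2.1.of_dvd
    obtain ⟨c, hc⟩ := Nat.exists_eq_add_of_le (show i ≤ m' by omega)
    exact ⟨p ^ c, by rw [hc, pow_add]; ring⟩
  · have : i = m := le_antisymm hi h
    subst this
    rw [mul_comm]
    exact hP

end Pool.Agent.X286.Ca
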