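import Pool.Agent.X286.Ca.L

/-!
# Monomial rules and the rule `c (1 + x)`
-/

set_option autoImplicit false

namespace Pool.Agent.X286.Ca

open Finset Polynomial

variable {σ : ℕ}

theorem int_fermat {p : ℕ} (hp : p.Prime) (a : ℤ) (k : ℕ) (hk : p - 1 ∣ k) :
    (p : ℤ) ∣ a ^ (k + 1) - a := by
  have := Fact.mk hp
  rw [← ZMod.intCast_zmod_eq_zero_iff_dvd]
  push_cast
  obtain ⟨t, rfl⟩ := hk
  by_cases h : (a : ZMod p) = 0
  · rw [h, zero_pow (by omega), sub_zero]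
  · rw [pow_succ, pow_mul, ZMod.pow_card_sub_one_eq_one h, one_pow, one_mul, sub_self]

theorem int_dvd_cast {p : ℕ} {u : ℤ} (h : (p : ℤ) ∣ u) : (p : A σ) ∣ (u : A σ) := by
  obtain ⟨t, rfl⟩ := h
  refine ⟨(t : A σ), ?_⟩
  push_cast
  ring

/-- the eventual period of a monomial rule divides `lcm σ (p - 1)` -/
theorem mono_E {p : ℕ} (hp : p.Prime) (a b : ℤ) (h : (p : ℤ) ∣ a ∨ (p : ℤ) ∣ b) (k : ℕ)
    (hk1 : σ ∣ k) (hk2 : p - 1 ∣ k) : E (p : A σ) (el σ a b) k := by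
  rcases h with h | h
  · have h1 : (p : A σ) ∣ (b : A σ) * x σ - el σ a b := by
      have : (b : A σ) * x σ - el σ a b = -(a : A σ) := by rw [el]; ring
      rw [this]
      exact (int_dvd_cast h).neg_right
    apply E.congr h1
    refine ⟨1, ?_⟩
    obtain ⟨t, ht⟩ := hk1
    have h2 : ((b : A σ) * x σ) ^ (k + 1) - ((b : A σ) * x σ) ^ 1 =
        ((b ^ (k + 1) - b : ℤ) : A σ) * x σ := by
      have h3 : x σ ^ (k + 1) = x σ := by
        rw [pow_succ, ht, pow_mul, x_card, one_pow, one_mul]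
      rw [mul_pow, h3]
      push_cast
      ring
    rw [h2]
    exact (int_dvd_cast (int_fermat hp b k hk2)).mul_right _
  · have h1 : (p : A σ) ∣ (a : A σ) - el σ a b := by
      have : (a : A σ) - el σ a b = -((b : A σ) * x σ) := by rw [el]; ring
      rw [this]
      exact ((int_dvd_cast h).mul_right _).neg_right
    apply E.congr h1
    refine ⟨1, ?_⟩
    have h2 : (a : A σ) ^ (k + 1) - (a : A σ) ^ 1 = ((a ^ (k + 1) - a : ℤ) : A σ) := by
      push_cast
      ring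
    rw [h2]
    exact int_dvd_cast (int_fermat hp a k hk2)

/-- inversion of the generator -/
noncomputable def inv (σ : ℕ) : A σ →+* A σ :=
  AddMonoidAlgebra.mapDomainRingHom ℤ (-(AddMonoidHom.id (ZMod σ)))

theorem x_inv : x σ * inv σ (x σ) = 1 := by
  rw [inv, x, AddMonoidAlgebra.mapDomainRingHom_apply, AddMonoidAlgebra.mapDomain_single,
    AddMonoidAlgebra.single_mul_single, AddMonoidAlgebra.one_def]
  simp

theorem inv_int (c : ℤ) : inv σ (c : A σ) = (c : A σ) := map_intCast _ _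

theorem g_sigma [NeZero σ] {p : ℕ} (hp : p.Prime) (hp2 : p ≠ 2) (c : ℤ) (hc : ¬ (p : ℤ) ∣ c)
    (κ : ℕ) (hκ : 2 ∣ κ) (hE : E (p : A σ) (el σ c c) κ) : σ ∣ κ := by
  obtain ⟨l, hl⟩ := hE.ev
  obtain ⟨g, hg⟩ : ∃ g, g = el σ c c := ⟨_, rfl⟩
  rw [← hg] at hl
  have hp3 : 3 ≤ p := by
    have := hp.two_le
    omega
  -- symmetry
  have hsym : g = x σ * inv σ g := by
    rw [hg, el, map_add, map_mul, inv_int]
    have h1 : x σ * ((c : A σ) + (c : A σ) * inv σ (x σ)) =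
      (c : A σ) * x σ + (c : A σ) * (x σ * inv σ (x σ)) := by ring
    rw [h1, x_inv]
    ring
  have key : ∀ t, l ≤ t → (p : A σ) ∣ g ^ t - x σ ^ κ * g ^ t := by
    intro t ht
    have h1 := hl t ht
    have h2 : (p : A σ) ∣ inv σ g ^ (κ + t) - inv σ g ^ t := by
      obtain ⟨u, hu⟩ := h1
      refine ⟨inv σ u, ?_⟩
      have h3 := congrArg (inv σ) hu
      simpa using h3
    have h3 : g ^ (κ + t) = x σ ^ (κ + t) * inv σ g ^ (κ + t) := by
      rw [← mul_pow, ← hsym]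
    have h4 : g ^ t = x σ ^ t * inv σ g ^ t := by
      rw [← mul_pow, ← hsym]
    have h5 : g ^ t - x σ ^ κ * g ^ t = x σ ^ (κ + t) * (inv σ g ^ (κ + t) - inv σ g ^ t) -
        (g ^ (κ + t) - g ^ t) := by
      rw [mul_sub, ← h3]
      have h6 : x σ ^ (κ + t) * inv σ g ^ t = x σ ^ κ * g ^ t := by
        rw [h4, pow_add]; ring
      rw [h6]
      ring
    rw [h5]
    exact dvd_sub (h2.mul_left _) h1
  obtain ⟨Q, hQ⟩ : ∃ Q, Q = p ^ l := ⟨_, rfl⟩
  have hlQ : l ≤ Q := by rw [hQ]; exact (Nat.lt_pow_self hp.one_lt).le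
  have h1 := key Q hlQ
  have h2 : (p : A σ) ∣ g ^ Q - elP σ c c Q := by
    have := frobP (σ := σ) hp c c 1 l
    rw [elP_one, one_mul, ← hQ, ← hg] at this
    exact this
  have h3 : (p : A σ) ∣ elP σ c c Q - x σ ^ κ * elP σ c c Q := by
    have h4 : elP σ c c Q - x σ ^ κ * elP σ c c Q = (g ^ Q - x σ ^ κ * g ^ Q) -
      (1 - x σ ^ κ) * (g ^ Q - elP σ c c Q) := by ring
    rw [h4]
    exact dvd_sub h1 (h2.mul_left _)
  have h4 : elP σ c c Q - x σ ^ κ * elP σ c c Q =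
      (c : A σ) * (x σ ^ 0 + x σ ^ Q - x σ ^ κ - x σ ^ (κ + Q)) := by
    rw [elP, pow_add]; ring
  rw [h4, dvd_iff_nat] at h3
  classical
  have hpi : Prime (p : ℤ) := Nat.prime_iff_prime_int.1 hp
  have h5 : ∀ r : ZMod σ, (if ((0 : ℕ) : ZMod σ) = r then (1 : ℤ) else 0) +
      (if (Q : ZMod σ) = r then 1 else 0) - (if (κ : ZMod σ) = r then 1 else 0) -
      (if ((κ + Q : ℕ) : ZMod σ) = r then 1 else 0) = 0 := by
    intro r
    have h6 := h3 r
    rw [coeff_int_mul] at h6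
    have h7 := (hpi.dvd_or_dvd h6).resolve_left hc
    have h8 : (x σ ^ 0 + x σ ^ Q - x σ ^ κ - x σ ^ (κ + Q)).coeff r =
        (x σ ^ 0).coeff r + (x σ ^ Q).coeff r - (x σ ^ κ).coeff r - (x σ ^ (κ + Q)).coeff r := rfl
    rw [h8, coeff_x_pow, coeff_x_pow, coeff_x_pow, coeff_x_pow] at h7
    apply Int.eq_zero_of_abs_lt_dvd h7
    have hp3' : (3 : ℤ) ≤ p := by exact_mod_cast hp3
    split_ifs <;> norm_num <;> linarith
  have h0 := h5 0
  have hQr := h5 (Q : ZMod σ)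
  by_cases hk0 : (κ : ZMod σ) = 0
  · exact (ZMod.natCast_eq_zero_iff _ _).1 hk0
  have e1 : (κ : ZMod σ) = Q := by
    by_contra hne
    have hne2 : ((κ + Q : ℕ) : ZMod σ) ≠ Q := by
      push_cast
      intro hc
      exact hk0 (by simpa using hc)
    rw [if_pos rfl, if_neg hne, if_neg hne2] at hQr
    split_ifs at hQr <;> norm_num at hQr
  have e2 : (κ : ZMod σ) + Q = 0 := by
    by_contra hne
    have hne2 : ((κ + Q : ℕ) : ZMod σ) ≠ 0 := by
      push_cast
      exact hne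
    rw [if_pos (by simp), if_neg hk0, if_neg hne2] at h0
    split_ifs at h0 <;> norm_num at h0
  have d1 : σ ∣ 2 * κ := by
    rw [← ZMod.natCast_eq_zero_iff]
    push_cast
    rw [two_mul]
    nth_rewrite 2 [e1]
    exact e2
  have d2 : σ ∣ 2 * Q := by
    rw [← ZMod.natCast_eq_zero_iff]
    push_cast
    rw [two_mul]
    nth_rewrite 1 [← e1]
    exact e2
  rcases Nat.even_or_odd' σ with ⟨s, hs | hs⟩
  · have d3 : s ∣ κ := by
      rw [hs] at d1
      exact Nat.dvd_of_mul_dvd_mul_left two_pos d1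
    have d4 : s ∣ p ^ l := by
      rw [hs, hQ] at d2
      exact Nat.dvd_of_mul_dvd_mul_left two_pos d2
    have hodd : Nat.Coprime 2 s := by
      apply Nat.Coprime.coprime_dvd_right d4
      apply Nat.Coprime.pow_right
      exact (Nat.coprime_primes Nat.prime_two hp).2 (Ne.symm hp2)
    have d5 : 2 * s ∣ κ := Nat.Coprime.mul_dvd_of_dvd_of_dvd hodd hκ d3
    rw [hs]
    exact d5
  · have hodd : Nat.Coprime σ 2 := by
      rw [hs]
      simp
    exact hodd.dvd_of_dvd_mul_left d1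

/-- the period of `c (1 + x)` modulo `p` is divisible by `p - 1` if `2 c` is a primitive root -/
theorem g_pred [NeZero σ] {p : ℕ} [Fact p.Prime] (c : ℤ) (u : (ZMod p)ˣ) (hu : orderOf u = p - 1)
    (hc : ((2 * c : ℤ) : ZMod p) = u) (κ : ℕ) (hE : E (p : A σ) (el σ c c) κ) : p - 1 ∣ κ := by
  rw [E_iff] at hE
  obtain ⟨l, q, hq⟩ := hE
  have h1 := congrArg (Polynomial.eval 1) hq
  simp only [eval_sub, eval_pow, eval_add, eval_mul, eval_C, eval_X, one_pow, mul_one, eval_one,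
    sub_self, zero_mul] at h1
  have h2 : (c : ZMod p) + c = u := by
    rw [← hc]; push_cast; ring
  rw [h2, sub_eq_zero, pow_add] at h1
  have h3 : u ^ κ = 1 := by
    have h4 : u ^ κ * u ^ l = u ^ l := by
      ext
      push_cast
      exact h1
    exact mul_eq_right.1 h4
  rw [← hu]
  exact orderOf_dvd_of_pow_eq_one h3

/-- existence of `c` -/
theorem exists_c {p : ℕ} [Fact p.Prime] (hp2 : p ≠ 2) : ∃ (c : ℤ) (u : (ZMod p)ˣ),
    orderOf u = p - 1 ∧ ((2 * c : ℤ) : ZMod p) = u ∧ ¬ (p : ℤ) ∣ c := by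
  obtain ⟨u, hu⟩ := IsCyclic.exists_generator (α := (ZMod p)ˣ)
  have h1 : orderOf u = p - 1 := by
    rw [orderOf_eq_card_of_forall_mem_zpowers hu, Nat.card_eq_fintype_card, ZMod.card_units]
  have h2 : (2 : ZMod p) ≠ 0 := by
    intro h
    have h3 : ((2 : ℕ) : ZMod p) = 0 := by exact_mod_cast h
    rw [ZMod.natCast_eq_zero_iff] at h3
    exact hp2 ((Nat.prime_dvd_prime_iff_eq (Fact.out : p.Prime) Nat.prime_two).1 h3)
  refine ⟨((((u : ZMod p) * 2⁻¹).val : ℕ) : ℤ), u, h1, ?_, ?_⟩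
  · push_cast
    rw [ZMod.natCast_zmod_val, mul_comm, mul_assoc, inv_mul_cancel₀ h2, mul_one]
  · intro h
    have h3 : (((u : ZMod p) * 2⁻¹).val : ZMod p) = 0 := by
      rw [ZMod.natCast_eq_zero_iff]
      exact_mod_cast h
    rw [ZMod.natCast_zmod_val] at h3
    exact (mul_ne_zero u.ne_zero (inv_ne_zero h2)) h3

end Pool.Agent.X286.Ca
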