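import Pool.Agent.X286.Ca.A

/-!
# Analysis modulo `p`
-/

set_option autoImplicit false

namespace Pool.Agent.X286.Ca

open Finset Polynomial

variable {σ : ℕ}

/-- `a + b x ^ P` -/
noncomputable def elP (σ : ℕ) (a b : ℤ) (P : ℕ) : A σ := (a : A σ) + (b : A σ) * x σ ^ P

theorem elP_one (a b : ℤ) : elP σ a b 1 = el σ a b := by
  rw [elP, el, pow_one]

theorem int_frob {p : ℕ} (hp : p.Prime) (a : ℤ) (N : ℕ) : (p : ℤ) ∣ a ^ p ^ N - a := by
  have := Fact.mk hp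
  rw [← ZMod.intCast_zmod_eq_zero_iff_dvd]
  push_cast
  rw [ZMod.pow_card_pow, sub_self]

theorem frobP {p : ℕ} (hp : p.Prime) (a b : ℤ) (P N : ℕ) :
    (p : A σ) ∣ elP σ a b P ^ p ^ N - elP σ a b (P * p ^ N) := by
  obtain ⟨r, hr⟩ := exists_add_pow_prime_pow_eq hp (a : A σ) ((b : A σ) * x σ ^ P) N
  obtain ⟨s, hs⟩ := int_frob hp a N
  obtain ⟨t, ht⟩ := int_frob hp b N
  have hs' : (a : A σ) ^ p ^ N = a + p * (s : A σ) := by
    have : a ^ p ^ N = a + p * s := by rw [← hs]; ring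
    exact_mod_cast congrArg (Int.cast : ℤ → A σ) this
  have ht' : (b : A σ) ^ p ^ N = b + p * (t : A σ) := by
    have : b ^ p ^ N = b + p * t := by rw [← ht]; ring
    exact_mod_cast congrArg (Int.cast : ℤ → A σ) this
  refine ⟨a * (b * x σ ^ P) * r + s + t * x σ ^ (P * p ^ N), ?_⟩
  rw [elP, elP, hr, mul_pow, hs', ht', ← pow_mul]
  ring

/-- congruence implies congruence of powers -/
theorem dvd_pow_sub {S : Type} [CommRing S] {n u v : S} (h : n ∣ u - v) (k : ℕ) :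
    n ∣ u ^ k - v ^ k := h.trans (sub_dvd_pow_sub_pow u v k)

theorem dvd_trans_sub {S : Type} [CommRing S] {n u v w : S} (h : n ∣ u - v) (h' : n ∣ v - w) :
    n ∣ u - w := by
  have : u - w = (u - v) + (v - w) := by ring
  rw [this]
  exact dvd_add h h'

theorem dvd_symm_sub {S : Type} [CommRing S] {n u v : S} (h : n ∣ u - v) : n ∣ v - u := by
  have : v - u = -(u - v) := by ring
  rw [this]
  exact h.neg_right

theorem E.congr {S : Type} [CommRing S] {n u v : S} (h : n ∣ u - v) {k : ℕ} (hu : E n u k) :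
    E n v k := by
  obtain ⟨l, hl⟩ := hu
  exact ⟨l, dvd_trans_sub (dvd_symm_sub (dvd_pow_sub h _)) (dvd_trans_sub hl (dvd_pow_sub h _))⟩

/-- the period modulo `p` is not divisible by a power of `p` which does not divide `σ` -/
theorem drop {p : ℕ} (hp : p.Prime) (hσ : 0 < σ) (a b : ℤ) (j k : ℕ)
    (hE : E (p : A σ) (el σ a b) (p ^ (j + 1) * k)) (hd : ¬ p ^ (j + 1) ∣ σ) :
    E (p : A σ) (el σ a b) (p ^ j * k) := by
  -- choose `N`
  obtain ⟨N, hN1, hN⟩ : ∃ N, 1 ≤ N ∧ ((p ^ j * p ^ N : ℕ) : ZMod σ) = ((p ^ j : ℕ) : ZMod σ) := by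
    obtain ⟨e, s, hs, hse⟩ := Nat.exists_eq_pow_mul_and_not_dvd hσ.ne' p hp.ne_one
    have hej : e ≤ j := by
      by_contra hc
      push Not at hc
      apply hd
      rw [hse]
      exact (pow_dvd_pow p (by omega)).mul_right _
    have hs0 : 0 < s := Nat.pos_of_ne_zero (fun h0 => hs (by rw [h0]; exact dvd_zero _))
    have hcop : Nat.Coprime p s := (Nat.Prime.coprime_iff_not_dvd hp).2 hs
    refine ⟨s.totient, Nat.totient_pos.2 hs0, ?_⟩
    rw [ZMod.natCast_eq_natCast_iff, hse]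
    have h1 : p ^ s.totient ≡ 1 [MOD s] := Nat.ModEq.pow_totient hcop
    have h2 : p ^ j * p ^ s.totient ≡ p ^ j * 1 [MOD (p ^ j * s)] := h1.mul_left' _
    rw [mul_one] at h2
    exact h2.of_dvd (mul_dvd_mul_right (pow_dvd_pow p hej) s)
  obtain ⟨l, hl⟩ := hE.ev
  obtain ⟨P, hP⟩ : ∃ P, P = p ^ j := ⟨_, rfl⟩
  obtain ⟨G, hG⟩ : ∃ G, G = elP σ a b P := ⟨_, rfl⟩
  obtain ⟨f, hf⟩ : ∃ f, f = el σ a b := ⟨_, rfl⟩
  have hfG : (p : A σ) ∣ f ^ P - G := by
    have := frobP (σ := σ) hp a b 1 j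
    rw [elP_one, one_mul, ← hP, ← hf, ← hG] at this
    exact this
  have hGG : (p : A σ) ∣ G ^ p ^ N - G := by
    have h1 := frobP (σ := σ) hp a b P N
    have h2 : elP σ a b (P * p ^ N) = elP σ a b P := by
      rw [elP, elP, x_pow_eq]
      rw [hP]
      exact hN
    rw [h2, ← hG] at h1
    exact h1
  have h1 := hl (p ^ (j + 1) * l) (Nat.le_mul_of_pos_left _ (by have := hp.pos; positivity))
  rw [← hf] at h1 hE ⊢
  have e1 : f ^ (p ^ (j + 1) * k + p ^ (j + 1) * l) = (f ^ P) ^ (p * (k + l)) := by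
    rw [← pow_mul, hP]; congr 1; ring
  have e2 : f ^ (p ^ (j + 1) * l) = (f ^ P) ^ (p * l) := by
    rw [← pow_mul, hP]; congr 1; ring
  rw [e1, e2] at h1
  have h2 : (p : A σ) ∣ G ^ (p * (k + l)) - G ^ (p * l) :=
    dvd_trans_sub (dvd_symm_sub (dvd_pow_sub hfG _)) (dvd_trans_sub h1 (dvd_pow_sub hfG _))
  have h3 := dvd_pow_sub h2 (p ^ (N - 1))
  have hpN : p * p ^ (N - 1) = p ^ N := by
    rw [← pow_succ']; congr 1; omega
  have e3 : ∀ t, (G ^ (p * t)) ^ (p ^ (N - 1)) = (G ^ p ^ N) ^ t := by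
    intro t
    rw [← pow_mul, ← pow_mul, ← hpN]; congr 1; ring
  rw [e3, e3] at h3
  have h4 : (p : A σ) ∣ G ^ (k + l) - G ^ l :=
    dvd_trans_sub (dvd_symm_sub (dvd_pow_sub hGG _)) (dvd_trans_sub h3 (dvd_pow_sub hGG _))
  refine ⟨p ^ j * l, ?_⟩
  have e4 : f ^ (p ^ j * k + p ^ j * l) = (f ^ P) ^ (k + l) := by
    rw [← pow_mul, hP]; congr 1; ring
  have e5 : f ^ (p ^ j * l) = (f ^ P) ^ l := by
    rw [← pow_mul, hP]
  rw [e4, e5]
  exact dvd_trans_sub (dvd_pow_sub hfG _) (dvd_trans_sub h4 (dvd_symm_sub (dvd_pow_sub hfG _)))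

/-- the growth of the period modulo `p ^ 2` -/
theorem growth [NeZero σ] {p : ℕ} (hp : p.Prime) (a b : ℤ) (ha : ¬ (p : ℤ) ∣ a)
    (hb : ¬ (p : ℤ) ∣ b) (j k : ℕ) (hk : ¬ p ∣ k) (hd : p ^ (j + 1) ∣ σ)
    (hnil : ∀ l, ¬ (p : A σ) ∣ el σ a b ^ l) :
    ¬ E ((p : A σ) ^ 2) (el σ a b) (p ^ (j + 1) * k) := by
  intro hE
  obtain ⟨P, hP⟩ : ∃ P, P = p ^ j := ⟨_, rfl⟩
  obtain ⟨G, hG⟩ : ∃ G, G = elP σ a b P := ⟨_, rfl⟩
  obtain ⟨f, hf⟩ : ∃ f, f = el σ a b := ⟨_, rfl⟩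
  have hP0 : 0 < P := by rw [hP]; have := hp.pos; positivity
  have hfG : (p : A σ) ∣ f ^ P - G := by
    have := frobP (σ := σ) hp a b 1 j
    rw [elP_one, one_mul, ← hP, ← hf, ← hG] at this
    exact this
  have hfG2 : (p : A σ) ^ 2 ∣ f ^ (P * p) - G ^ p := by
    have := dvd_sub_pow_of_dvd_sub hfG 1
    rw [pow_one, ← pow_mul] at this
    exact this
  obtain ⟨D, hD⟩ : ∃ D : A σ, D = ((b : A σ) * x σ ^ P) ^ p + (a : A σ) ^ p := ⟨_, rfl⟩
  obtain ⟨T, hT⟩ : ∃ T : A σ, T = ∑ i ∈ Ioo 0 p, ((b : A σ) * x σ ^ P) ^ i * (a : A σ) ^ (p - i) *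
    ((p.choose i / p : ℕ) : A σ) := ⟨_, rfl⟩
  have hGp : G ^ p = D + p * T := by
    have h := add_pow_prime_eq hp ((b : A σ) * x σ ^ P) (a : A σ)
    rw [hG, elP, add_comm (a : A σ), h, hD, hT]
    have h' : (b : A σ) * x σ ^ P * (a : A σ) * ∑ i ∈ Ioo 0 p, ((b : A σ) * x σ ^ P) ^ (i - 1) *
        (a : A σ) ^ (p - i - 1) * ((p.choose i / p : ℕ) : A σ) =
        ∑ i ∈ Ioo 0 p, ((b : A σ) * x σ ^ P) ^ i * (a : A σ) ^ (p - i) *
        ((p.choose i / p : ℕ) : A σ) := by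
      rw [mul_sum]
      apply sum_congr rfl
      intro i hi
      rw [mem_Ioo] at hi
      obtain ⟨u, hu⟩ : ∃ u, i = u + 1 := ⟨i - 1, by omega⟩
      obtain ⟨v, hv⟩ : ∃ v, p - i = v + 1 := ⟨p - i - 1, by omega⟩
      rw [hv, hu]
      simp only [Nat.add_sub_cancel]
      ring
    rw [← h']
    ring
  -- degrees
  obtain ⟨δ, hδ⟩ : ∃ δ : ZMod σ →+* ZMod (p ^ (j + 1)), δ = ZMod.castHom hd _ := ⟨_, rfl⟩
  have hD' : D = ((a ^ p : ℤ) : A σ) + ((b ^ p : ℤ) : A σ) * x σ ^ (p ^ (j + 1)) := by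
    rw [hD, mul_pow, ← pow_mul, hP]
    push_cast
    rw [show p ^ j * p = p ^ (j + 1) from (pow_succ _ _).symm]
    ring
  have hdeg : ∀ n : ℕ, ∀ r : ZMod σ, δ r ≠ 0 → (D ^ n).coeff r = 0 := by
    intro n
    induction n with
    | zero =>
      intro r hr
      rw [pow_zero, ← pow_zero (x σ)]
      classical
      rw [coeff_x_pow, if_neg]
      intro h0
      apply hr
      rw [← h0]
      simp
    | succ n ih =>
      intro r hr
      have e0 : D ^ (n + 1) = ((a ^ p : ℤ) : A σ) * D ^ n +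
          ((b ^ p : ℤ) : A σ) * (x σ ^ (p ^ (j + 1)) * D ^ n) := by
        rw [pow_succ']
        nth_rewrite 1 [hD']
        ring
      have e1 : (((a ^ p : ℤ) : A σ) * D ^ n +
            ((b ^ p : ℤ) : A σ) * (x σ ^ (p ^ (j + 1)) * D ^ n)).coeff r
          = (((a ^ p : ℤ) : A σ) * D ^ n).coeff r +
            (((b ^ p : ℤ) : A σ) * (x σ ^ (p ^ (j + 1)) * D ^ n)).coeff r := rfl
      rw [e0, e1, coeff_int_mul, coeff_int_mul, coeff_x_mul, ih r hr, ih, mul_zero, mul_zero,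
        add_zero]
      rw [map_sub, map_natCast]
      have : ((p ^ (j + 1) : ℕ) : ZMod (p ^ (j + 1))) = 0 := ZMod.natCast_self _
      rw [this, sub_zero]
      exact hr
  have hDf : (p : A σ) ∣ D - f ^ (P * p) := by
    have h1 : (p : A σ) ∣ f ^ (P * p) - G ^ p := (dvd_pow_self _ two_ne_zero).trans hfG2
    have h2 : D - f ^ (P * p) = -(f ^ (P * p) - G ^ p) - p * T := by rw [hGp]; ring
    rw [h2]
    exact dvd_sub h1.neg_right (dvd_mul_right _ _)
  -- the equation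
  obtain ⟨l, hl⟩ := hE.ev
  obtain ⟨m, hm⟩ : ∃ m, m = p * (l + 1) := ⟨_, rfl⟩
  have hm1 : 1 ≤ m := by rw [hm]; have := hp.pos; exact Nat.one_le_iff_ne_zero.2 (by positivity)
  have hPp : P * p = p ^ (j + 1) := by rw [hP, pow_succ]
  have hlm : l ≤ p ^ (j + 1) * m := by
    have h1 : 1 ≤ p ^ (j + 1) := Nat.one_le_iff_ne_zero.2 (by have := hp.pos; positivity)
    have h2 : l + 1 ≤ m := by
      rw [hm]; exact Nat.le_mul_of_pos_left _ hp.pos
    nlinarith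
  have h1 := hl (p ^ (j + 1) * m) hlm
  rw [← hf] at h1
  have e1 : f ^ (p ^ (j + 1) * k + p ^ (j + 1) * m) = (f ^ (P * p)) ^ (k + m) := by
    rw [← pow_mul, hPp]; congr 1; ring
  have e2 : f ^ (p ^ (j + 1) * m) = (f ^ (P * p)) ^ m := by
    rw [← pow_mul, hPp]
  rw [e1, e2] at h1
  have h2 : (p : A σ) ^ 2 ∣ (D + p * T) ^ (k + m) - (D + p * T) ^ m := by
    rw [← hGp]
    exact dvd_trans_sub (dvd_symm_sub (dvd_pow_sub hfG2 _)) (dvd_trans_sub h1 (dvd_pow_sub hfG2 _))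
  have hexp : ∀ n : ℕ, (p : A σ) ^ 2 ∣ (D + p * T) ^ n - D ^ (n - 1) * (p * T) * n - D ^ n := by
    intro n
    refine dvd_trans ?_ (sq_dvd_add_pow_sub_sub ((p : A σ) * T) D n)
    rw [mul_pow]
    exact dvd_mul_right _ _
  have h3 : (p : A σ) ^ 2 ∣ D ^ (k + m) - D ^ m + ((p * k : ℕ) : A σ) * (T * D ^ (k + m - 1)) := by
    have h4 := hexp (k + m)
    have h5 := hexp m
    have h6 : (p : A σ) ^ 2 ∣ D ^ (k + m - 1) * (p * T) * m := by
      rw [hm]
      refine ⟨D ^ (k + p * (l + 1) - 1) * T * (l + 1), ?_⟩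
      push_cast
      ring
    have h7 : (p : A σ) ^ 2 ∣ D ^ (m - 1) * (p * T) * m := by
      rw [hm]
      refine ⟨D ^ (p * (l + 1) - 1) * T * (l + 1), ?_⟩
      push_cast
      ring
    have h8 : D ^ (k + m) - D ^ m + ((p * k : ℕ) : A σ) * (T * D ^ (k + m - 1)) =
        ((D + p * T) ^ (k + m) - (D + p * T) ^ m)
        - ((D + p * T) ^ (k + m) - D ^ (k + m - 1) * (p * T) * ((k + m : ℕ) : A σ) - D ^ (k + m))
        + ((D + p * T) ^ m - D ^ (m - 1) * (p * T) * m - D ^ m)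
        - D ^ (k + m - 1) * (p * T) * m + D ^ (m - 1) * (p * T) * m := by
      push_cast
      ring
    rw [h8]
    exact dvd_add (dvd_sub (dvd_add (dvd_sub h2 h4) h5) h6) h7
  -- a coefficient of `D ^ (k + m - 1)`
  have h4 : ¬ (p : A σ) ∣ D ^ (k + m - 1) := by
    intro hc
    apply hnil ((P * p) * (k + m - 1))
    rw [← hf, pow_mul]
    have h5 := dvd_pow_sub hDf (k + m - 1)
    have h6 : (f ^ (P * p)) ^ (k + m - 1) = D ^ (k + m - 1) -
      (D ^ (k + m - 1) - (f ^ (P * p)) ^ (k + m - 1)) := by ring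
    rw [h6]
    exact dvd_sub hc h5
  rw [dvd_iff_nat] at h4
  push Not at h4
  obtain ⟨s, hs⟩ := h4
  have hs0 : δ s = 0 := by
    by_contra hc
    apply hs
    rw [hdeg _ _ hc]
    exact dvd_zero _
  have hPne : ((P : ℕ) : ZMod (p ^ (j + 1))) ≠ 0 := by
    rw [Ne, ZMod.natCast_eq_zero_iff]
    intro hc
    have := Nat.le_of_dvd hP0 hc
    rw [hP, pow_succ] at this
    have h2p := hp.two_le
    have : 0 < p ^ j := by have := hp.pos; positivity
    nlinarith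
  have h5 : ((p ^ 2 : ℕ) : A σ) ∣ D ^ (k + m) - D ^ m + ((p * k : ℕ) : A σ) * (T * D ^ (k + m - 1)) := by
    push_cast
    push_cast at h3
    exact h3
  rw [dvd_iff_nat] at h5
  have h6 := h5 (s + (P : ZMod σ))
  have hδr : δ (s + (P : ZMod σ)) ≠ 0 := by
    rw [map_add, hs0, zero_add, map_natCast]
    exact hPne
  have hTc : (T * D ^ (k + m - 1)).coeff (s + (P : ZMod σ)) =
      b * a ^ (p - 1) * (D ^ (k + m - 1)).coeff s := by
    rw [hT, sum_mul, ← AddMonoidAlgebra.coeffAddEquiv_apply, map_sum, Finsupp.finsetSum_apply]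
    have hterm : ∀ i ∈ Ioo 0 p, (AddMonoidAlgebra.coeffAddEquiv
        (((b : A σ) * x σ ^ P) ^ i * (a : A σ) ^ (p - i) * ((p.choose i / p : ℕ) : A σ) *
          D ^ (k + m - 1))) (s + (P : ZMod σ)) =
        b ^ i * a ^ (p - i) * ((p.choose i / p : ℕ) : ℤ) *
          (D ^ (k + m - 1)).coeff (s + (P : ZMod σ) - ((P * i : ℕ) : ZMod σ)) := by
      intro i _
      rw [AddMonoidAlgebra.coeffAddEquiv_apply]
      have e3 : ((b : A σ) * x σ ^ P) ^ i * (a : A σ) ^ (p - i) * ((p.choose i / p : ℕ) : A σ) *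
          D ^ (k + m - 1) = ((b ^ i * a ^ (p - i) * ((p.choose i / p : ℕ) : ℤ) : ℤ) : A σ) *
            (x σ ^ (P * i) * D ^ (k + m - 1)) := by
        generalize p.choose i / p = c
        push_cast
        rw [mul_pow, ← pow_mul]
        ring
      rw [e3, coeff_int_mul, coeff_x_mul]
    rw [sum_congr rfl hterm, sum_eq_single_of_mem 1 (mem_Ioo.2 ⟨one_pos, hp.one_lt⟩)]
    · rw [Nat.choose_one_right, Nat.div_self hp.pos, mul_one, add_sub_cancel_right]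
      simp
    · intro i hi hi1
      rw [mem_Ioo] at hi
      rw [hdeg, mul_zero]
      rw [map_sub, map_natCast, map_add, hs0, zero_add, map_natCast, sub_ne_zero]
      intro hc
      rw [ZMod.natCast_eq_natCast_iff, ← hPp] at hc
      have h7 : P * 1 ≡ P * i [MOD P * p] := by rwa [mul_one]
      have h8 := Nat.ModEq.mul_left_cancel' hP0.ne' h7
      have h9 := Nat.ModEq.eq_of_lt_of_lt h8 hp.one_lt hi.2
      exact hi1 h9.symm
  have h7 : (D ^ (k + m) - D ^ m + ((p * k : ℕ) : A σ) * (T * D ^ (k + m - 1))).coeff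
      (s + (P : ZMod σ)) = p * (k * (b * a ^ (p - 1) * (D ^ (k + m - 1)).coeff s)) := by
    have e4 : (D ^ (k + m) - D ^ m + ((p * k : ℕ) : A σ) * (T * D ^ (k + m - 1))).coeff
      (s + (P : ZMod σ)) = (D ^ (k + m)).coeff (s + (P : ZMod σ)) -
        (D ^ m).coeff (s + (P : ZMod σ)) +
        ((((p * k : ℕ) : ℤ) : A σ) * (T * D ^ (k + m - 1))).coeff (s + (P : ZMod σ)) := by
      push_cast
      rfl
    rw [e4, hdeg _ _ hδr, hdeg _ _ hδr, coeff_int_mul, hTc]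
    push_cast
    ring
  rw [h7] at h6
  have h8 : (p : ℤ) ∣ k * (b * a ^ (p - 1) * (D ^ (k + m - 1)).coeff s) := by
    have hp0 : (p : ℤ) ≠ 0 := by exact_mod_cast hp.ne_zero
    apply Int.dvd_of_mul_dvd_mul_left hp0
    rw [← pow_two]
    exact_mod_cast h6
  have hpi : Prime (p : ℤ) := Nat.prime_iff_prime_int.1 hp
  rcases hpi.dvd_or_dvd h8 with h | h
  · exact hk (by exact_mod_cast h)
  rcases hpi.dvd_or_dvd h with h | h
  · rcases hpi.dvd_or_dvd h with h | h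
    · exact hb h
    · exact ha (hpi.dvd_of_dvd_pow h)
  · exact hs h

end Pool.Agent.X286.Ca
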